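import Pool.Agent.R547.EQ.PetersenC2

set_option autoImplicit false

/-!
# Equality testing on the Petersen graph: `f(P) = k / 2`, and `P` is not Hamiltonian
-/

namespace Pool.Agent.Results.MP_76d60e_lc.PetersenHalf

open Filter Topology
open Pool.Agent.R547.EQ

/-- There is a connected non-Hamiltonian graph (the Petersen graph) on `k = 10` vertices with
`f(G) = k / 2`. -/
theorem result : ∃ G : SimpleGraph (Fin 10), G.Connected ∧ ¬ G.IsHamiltonian ∧
    Tendsto (fun n : ℕ => (eqCost G n : ℝ) / n) atTop (𝓝 (10 / 2)) ∧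
    Tendsto (fun n : ℕ => (eqCostOne G n : ℝ) / n) atTop (𝓝 (10 / 2)) := by
  have h := tendsto_eqCost petersen petersen_connected (fun u => exists_ne u)
  rw [petersen_fc] at h
  have e : (10 / 2 : ℝ) = 5 := by norm_num
  rw [e]
  exact ⟨petersen, petersen_connected, petersen_not_hamiltonian, h⟩

end Pool.Agent.Results.MP_76d60e_lc.PetersenHalf
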